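import Pool.Agent.Run7.h985.Crit

/-!
# A criterion for Anick's conjecture

Let `(ΛW, d)` be a minimal Sullivan algebra with `dim W < ∞` and `W^1 = 0`. Suppose that it is
contained in a relative Sullivan algebra `(ΛW ⊗ ΛU, D)`, `U` finite dimensional and concentrated
in even degrees, with cocycles `P_1, ..., P_r` of even degree in the ideal `(W)` such that the
even generators of `W` are nilpotent modulo the ideal generated by `P_1, ..., P_r`, `U` and
`W^odd`. Then for every `n` there is an elliptic relative Sullivan extension of `(ΛW, d)`, minimal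
as a Sullivan algebra, by finitely many generators of odd degree at least `n`.
-/

set_option autoImplicit false

namespace Pool.Agent.Results.MP_5f0082_gt.EvenFibreCriterion

section Defs

variable {ι A : Type} [Ring A] [Algebra ℚ A]

/-- the family `v` satisfies the relations `v_i v_j = (-1)^(deg i * deg j) v_j v_i` -/
def GradedCommute (deg : ι → ℕ) (v : ι → A) : Prop :=
  ∀ i j, v i * v j = ((-1 : ℚ) ^ (deg i * deg j)) • (v j * v i)

/-- `A` is the free graded commutative algebra `ΛV` on the graded vector space `V` with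
homogeneous basis `v_i` (`i : ι`), `v_i` of degree `deg i`: the universal property -/
def IsFreeGC (deg : ι → ℕ) (v : ι → A) : Prop :=
  GradedCommute deg v ∧ ∀ (B : Type) [Ring B] [Algebra ℚ B] (f : ι → B), GradedCommute deg f →
    ∃! φ : A →ₐ[ℚ] B, ∀ i, φ (v i) = f i

/-- the span of the products `v_{i_1} ... v_{i_k}` of the words with property `P` -/
def spanWords (v : ι → A) (P : List ι → Prop) : Submodule ℚ A :=
  Submodule.span ℚ {a | ∃ L : List ι, P L ∧ a = (L.map v).prod}

/-- the homogeneous elements of degree `n` -/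
def homog (deg : ι → ℕ) (v : ι → A) (n : ℕ) : Submodule ℚ A :=
  spanWords v (fun L => (L.map deg).sum = n)

/-- `d` makes the free graded commutative algebra `A = ΛV`, `V = V^{≥ 2}`, a commutative
differential graded algebra -/
structure IsFreeDGA (deg : ι → ℕ) (v : ι → A) (d : A →ₗ[ℚ] A) : Prop where
  /-- `A` is `ΛV` -/
  free : IsFreeGC deg v
  /-- all generators have degree at least 2 -/
  two_le : ∀ i, 2 ≤ deg i
  /-- the differential has degree `+1` -/
  degree : ∀ n, ∀ a ∈ homog deg v n, d a ∈ homog deg v (n + 1)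
  /-- the Leibniz rule -/
  leibniz : ∀ n, ∀ a ∈ homog deg v n, ∀ b, d (a * b) = d a * b + ((-1 : ℚ) ^ n) • (a * d b)
  /-- `d ∘ d = 0` -/
  sq : ∀ a, d (d a) = 0

/-- `d` makes `A = ΛV` a minimal Sullivan algebra with `V^1 = 0` -/
structure IsMinimalSullivan (deg : ι → ℕ) (v : ι → A) (d : A →ₗ[ℚ] A) : Prop extends
    IsFreeDGA deg v d where
  /-- minimality: `d V ⊆ Λ^{≥2} V` -/
  minimal : ∀ i, d (v i) ∈ spanWords v (fun L => 2 ≤ L.length)

/-- the two-sided ideal generated by a set -/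
def idealOf (T : Set A) : Submodule ℚ A :=
  Submodule.span ℚ {c | ∃ (a : A) (x : A) (b : A), x ∈ T ∧ c = a * x * b}

/-- the cohomology of `(A, d)` -/
abbrev Cohomology (d : A →ₗ[ℚ] A) : Type :=
  ↥(LinearMap.ker d) ⧸ (LinearMap.range d).comap (LinearMap.ker d).subtype

/-- the Sullivan algebra `(A, d) = (ΛW, d)`, `W` with basis `v_i` (`i : ι`), has an elliptic
relative Sullivan extension `(E, d') = (ΛW ⊗ ΛV, d')`, minimal as a Sullivan algebra, with `V` of
finite dimension and concentrated in odd degrees at least `n`: the basis of `W ⊕ V` is indexed by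
`ι ⊕ κ`, and `j` is the inclusion `(ΛW, d) → (ΛW ⊗ ΛV, d')`. -/
def HasOddEllipticExtension (deg : ι → ℕ) (v : ι → A) (d : A →ₗ[ℚ] A) (n : ℕ) : Prop :=
  ∃ (κ : Type) (_ : Finite κ) (E : Type) (_ : Ring E) (_ : Algebra ℚ E) (deg' : ι ⊕ κ → ℕ)
    (v' : ι ⊕ κ → E) (d' : E →ₗ[ℚ] E) (j : A →ₐ[ℚ] E),
    IsMinimalSullivan deg' v' d' ∧ (∀ i, deg' (Sum.inl i) = deg i) ∧
    (∀ i, j (v i) = v' (Sum.inl i)) ∧ (∀ a, j (d a) = d' (j a)) ∧
    (∀ k, Odd (deg' (Sum.inr k)) ∧ n ≤ deg' (Sum.inr k)) ∧ Module.Finite ℚ (Cohomology d')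

end Defs

open Pool.H582SA Run7.h985

section FGC

variable {ι : Type} {p : ι → ℕ}

theorem spanWords_eq (P : List ι → Prop) : spanWords (gen (sg p)) P = spanOf (sg p) P := by
  unfold spanWords spanOf
  congr 1
  ext a
  constructor
  · rintro ⟨L, hL, rfl⟩; exact ⟨L, hL, rfl⟩
  · rintro ⟨L, hL, rfl⟩; exact ⟨L, hL, rfl⟩

theorem free (p : ι → ℕ) : IsFreeGC p (gen (sg p)) := by
  refine ⟨fun i j => gen_comm i j, ?_⟩
  intro B _ _ f hf
  refine ⟨lift f hf, fun i => lift_gen f hf i, ?_⟩
  intro φ hφ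
  exact alg_ext _ _ (fun i => by rw [lift_gen]; exact hφ i)

theorem isMin (t : Sul ι) : IsMinimalSullivan t.deg (gen (sg t.deg)) t.D := by
  refine ⟨⟨free t.deg, t.two_le, fun n a ha => ?_, fun n a ha b => ?_, t.D_D⟩, fun i => ?_⟩
  · unfold homog at ha ⊢
    rw [spanWords_eq] at ha ⊢
    refine mkD_mem (fun i M => (M.map t.deg).sum = t.deg i + 1)
      (fun i => spanOf_mono (fun _ hL => hL.2) (t.good i)) ?_ ha
    rintro L hL W ⟨L1, i, L2, M, rfl, hM, rfl⟩
    simp only [List.map_append, List.map_cons, List.sum_append, List.sum_cons] at hL ⊢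
    omega
  · unfold homog at ha
    rw [spanWords_eq] at ha
    rw [t.isDer.mul, tau_par (spanOf_mono (fun _ hL => by rw [hL]) ha), smul_mul_assoc]
  · rw [spanWords_eq, t.D_gen]
    exact spanOf_mono (fun _ hL => hL.1) (t.good i)

end FGC

section transfer

variable {ι A : Type} [Ring A] [Algebra ℚ A] {deg : ι → ℕ} {v : ι → A} {d : A →ₗ[ℚ] A}

theorem iso (h : IsFreeGC deg v) : ∃ (φ : A →ₐ[ℚ] FGC (sg deg)) (ψ : FGC (sg deg) →ₐ[ℚ] A),
    (∀ i, φ (v i) = gen _ i) ∧ (∀ i, ψ (gen _ i) = v i) ∧ (∀ a, ψ (φ a) = a) ∧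
    ∀ a, φ (ψ a) = a := by
  obtain ⟨φ, hφ, -⟩ := h.2 (FGC (sg deg)) (gen (sg deg)) (fun i j => gen_comm i j)
  let ψ : FGC (sg deg) →ₐ[ℚ] A := lift v h.1
  have hψ : ∀ i, ψ (gen _ i) = v i := fun i => lift_gen v h.1 i
  refine ⟨φ, ψ, hφ, hψ, ?_, ?_⟩
  · intro a
    obtain ⟨χ, -, hχ⟩ := h.2 A v h.1
    have h1 := hχ (ψ.comp φ) (fun i => by rw [AlgHom.comp_apply, hφ, hψ])
    have h2 := hχ (AlgHom.id ℚ A) (fun i => rfl)
    exact DFunLike.congr_fun (h1.trans h2.symm) a
  · intro a
    have : φ.comp ψ = AlgHom.id ℚ _ := alg_ext _ _ (fun i => by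
      rw [AlgHom.comp_apply, hψ, hφ]; rfl)
    exact DFunLike.congr_fun this a

theorem map_span {B : Type} [Ring B] [Algebra ℚ B] {v' : ι → B} (φ : A →ₐ[ℚ] B)
    (hφ : ∀ i, φ (v i) = v' i) {P : List ι → Prop} {a : A} (ha : a ∈ spanWords v P) :
    φ a ∈ spanWords v' P := by
  unfold spanWords at ha
  induction ha using Submodule.span_induction with
  | mem x hx =>
    obtain ⟨L, hL, rfl⟩ := hx
    refine Submodule.subset_span ⟨L, hL, ?_⟩
    rw [map_list_prod, List.map_map]
    congr 1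
    apply List.map_congr_left
    intro i _
    exact hφ i
  | zero => rw [map_zero]; exact zero_mem _
  | add x y _ _ hx hy => rw [map_add]; exact add_mem hx hy
  | smul r x _ hx => rw [map_smul]; exact Submodule.smul_mem _ _ hx

theorem exists_qul (h : IsFreeDGA deg v d) : ∃ (s : Qul ι) (_ : s.deg = deg)
    (φ : A →ₐ[ℚ] FGC (sg s.deg)), (∀ i, φ (v i) = gen _ i) ∧ (∀ a, φ (d a) = s.D (φ a)) := by
  obtain ⟨φ, ψ, hφ, hψ, hψφ, hφψ⟩ := iso h.free
  have hv : ∀ i, v i ∈ homog deg v (deg i) := fun i => Submodule.subset_span ⟨[i], by simp, by simp⟩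
  have hgood : ∀ i, φ (d (v i)) ∈ spanOf (sg deg) (fun L => (L.map deg).sum = deg i + 1) := by
    intro i
    have h2 := map_span φ hφ (h.degree _ _ (hv i))
    rw [spanWords_eq] at h2
    exact h2
  let D0 : FGC (sg deg) →ₗ[ℚ] FGC (sg deg) := mkD (fun i => φ (d (v i)))
    (fun i => spanOf_mono (fun _ hL => by rw [hL]) (hgood i))
  have hD0 : D0 = φ.toLinearMap ∘ₗ d ∘ₗ ψ.toLinearMap := by
    refine der_ext _ _ id (tau _) (mkD_mul _ _) ?_ ?_ ?_
    · intro a b
      simp only [LinearMap.comp_apply, AlgHom.toLinearMap_apply, id, map_mul]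
      refine mono_induct (P := fun a => φ (d (ψ a * ψ b))
        = φ (d (ψ a)) * b + tau deg a * φ (d (ψ b))) ?_ ?_ ?_ ?_ a
      · intro L
        have h1 : ψ (mono (sg deg) L) ∈ homog deg v ((L.map deg).sum) := by
          refine map_span (v := gen (sg deg)) ψ hψ ?_
          rw [spanWords_eq]
          exact mono_mem rfl
        rw [h.leibniz _ _ h1, map_add, map_mul, map_smul, map_mul, hφψ, hφψ, tau_mono,
          smul_mul_assoc]
      · simp
      · intro a b h1 h2
        rw [map_add, add_mul, map_add, map_add, h1, h2, map_add, map_add, map_add, add_mul,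
          add_mul]
        abel
      · intro r a h1
        rw [map_smul, smul_mul_assoc, map_smul, map_smul, h1, map_smul, map_smul, map_smul,
          smul_mul_assoc, smul_mul_assoc, smul_add]
    · have h1 : d 1 = 0 := by
        have h2 := h.leibniz 0 1 (Submodule.subset_span ⟨[], by simp, by simp⟩) 1
        rw [mul_one, pow_zero, one_smul, one_mul, mul_one] at h2
        exact left_eq_add.mp h2
      change mkD _ _ 1 = φ (d (ψ 1))
      rw [mkD_one, map_one, h1, map_zero]
    · intro i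
      change mkD _ _ (gen _ i) = φ (d (ψ (gen _ i)))
      rw [mkD_gen, hψ]
  have hD1 : ∀ a, D0 a = φ (d (ψ a)) := fun a => by rw [hD0]; rfl
  refine ⟨⟨deg, h.two_le, fun i => φ (d (v i)), hgood, ?_⟩, rfl, φ, hφ, ?_⟩
  · intro i
    change D0 (φ (d (v i))) = 0
    rw [hD1, hψφ, h.sq, map_zero]
  · intro a
    change φ (d a) = D0 (φ a)
    rw [hD1, hψφ]

theorem exists_sul (h : IsMinimalSullivan deg v d) : ∃ (s : Sul ι) (_ : s.deg = deg)
    (φ : A →ₐ[ℚ] FGC (sg s.deg)), (∀ i, φ (v i) = gen _ i) ∧ (∀ a, φ (d a) = s.D (φ a)) := by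
  obtain ⟨t, ht, φ, hφ, hd⟩ := exists_qul h.toIsFreeDGA
  subst ht
  refine ⟨t.toSul ?_, rfl, φ, hφ, hd⟩
  intro i
  have h1 := map_span φ hφ (h.minimal i)
  rw [spanWords_eq, hd, hφ, t.D_gen] at h1
  exact h1

theorem of_sul {s : Sul ι} [Finite ι] (φ : A →ₐ[ℚ] FGC (sg s.deg))
    (hφ : ∀ i, φ (v i) = gen _ i) (hd : ∀ a, φ (d a) = s.D (φ a)) {n : ℕ}
    (h : s.AnickOdd n) : HasOddEllipticExtension s.deg v d n := by
  obtain ⟨κ, hκ, t, ⟨hdeg, hext⟩, hn, hodd, hell⟩ := h
  have hfin : Finite (ι ⊕ κ) := inferInstance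
  refine ⟨κ, hκ, FGC (sg t.deg), inferInstance, inferInstance, t.deg, gen _, t.D,
    (emb (p := s.deg) Sum.inl hdeg).comp φ, isMin t, hdeg, ?_, ?_,
    fun k => ⟨Nat.not_even_iff_odd.1 (hodd k), hn k⟩, fin_coh t.isDer t.D_D hell⟩
  · intro i
    rw [AlgHom.comp_apply, hφ, emb_gen]
  · intro a
    rw [AlgHom.comp_apply, AlgHom.comp_apply, hd]
    refine (der_emb s.isDer t.isDer _ _ ?_ _).symm
    intro i
    rw [t.D_gen, s.D_gen]
    exact hext i

end transfer

/-- Criterion: let `(A, d) = (ΛW, d)` be a minimal Sullivan algebra, `W` finite dimensional with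
`W^1 = 0`. Let `(C, D) = (ΛW ⊗ ΛU, D)` be an extension of `(A, d)`, `U` finite dimensional and
concentrated in even degrees, and let `P_j` (`j : η`) be finitely many homogeneous `D`-cocycles of
even degree in the ideal of `C` generated by `W`, such that every even generator of `W` is
nilpotent modulo the ideal of `C` generated by the `P_j`, `U` and `W^odd`. Then `(A, d)` has, for
every `n`, an elliptic extension, minimal as a Sullivan algebra, by finitely many generators of
odd degree at least `n`. -/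
theorem result {ι A : Type} [Finite ι] [Ring A] [Algebra ℚ A] (deg : ι → ℕ) (v : ι → A)
    (d : A →ₗ[ℚ] A) (h : IsMinimalSullivan deg v d)
    {υ C : Type} [Finite υ] [Ring C] [Algebra ℚ C] (degC : ι ⊕ υ → ℕ) (w : ι ⊕ υ → C)
    (D : C →ₗ[ℚ] C) (hC : IsFreeDGA degC w D) (inc : A →ₐ[ℚ] C)
    (hdeg : ∀ i, degC (Sum.inl i) = deg i) (hinc : ∀ i, inc (v i) = w (Sum.inl i))
    (hD : ∀ a, inc (d a) = D (inc a)) (hU : ∀ u, Even (degC (Sum.inr u)))
    {η : Type} [Finite η] (P : η → C) (m : η → ℕ) (hm : ∀ j, Even (m j))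
    (hPm : ∀ j, P j ∈ homog degC w (m j)) (hPD : ∀ j, D (P j) = 0)
    (hPW : ∀ j, P j ∈ idealOf (Set.range (fun i : ι => w (Sum.inl i))))
    (hnil : ∀ i, Even (deg i) → ∃ N, w (Sum.inl i) ^ N ∈ idealOf (Set.range P ∪
      Set.range (fun u : υ => w (Sum.inr u)) ∪ {x | ∃ i, Odd (deg i) ∧ x = w (Sum.inl i)}))
    (n : ℕ) : HasOddEllipticExtension deg v d n := by
  obtain ⟨s, hs, φ, hφ, hd⟩ := exists_sul h
  subst hs
  obtain ⟨B, hB, χ, hχ, hDχ⟩ := exists_qul hC
  subst hB
  have hcomp : ∀ a, χ (inc a) = emb Sum.inl hdeg (φ a) := by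
    intro a
    have hgc : GradedCommute s.deg (fun i => gen (sg B.deg) (Sum.inl i)) := by
      intro i j
      rw [gen_comm]
      congr 1
      simp only [sg, hdeg]
    obtain ⟨f, -, hf⟩ := h.free.2 (FGC (sg B.deg)) (fun i => gen _ (Sum.inl i)) hgc
    have h1 := hf (χ.comp inc) (fun i => by rw [AlgHom.comp_apply, hinc, hχ])
    have h2 := hf ((emb Sum.inl hdeg).comp φ) (fun i => by rw [AlgHom.comp_apply, hφ, emb_gen])
    exact DFunLike.congr_fun (h1.trans h2.symm) a
  have hPm' : ∀ j, χ (P j) ∈ spanOf (sg B.deg) (fun L => (L.map B.deg).sum = m j) := by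
    intro j
    have h1 := map_span χ hχ (hPm j)
    rw [spanWords_eq] at h1
    exact h1
  have hPW' : ∀ j, χ (P j) ∈ spanOf (sg B.deg)
      (fun L => 1 ≤ (L.map (ind (fun b : ι ⊕ υ => ∃ u, b = Sum.inr u))).sum) := by
    suffices h0 : ∀ c ∈ idealOf (Set.range (fun i : ι => w (Sum.inl i))), χ c ∈ spanOf (sg B.deg)
        (fun L => 1 ≤ (L.map (ind (fun b : ι ⊕ υ => ∃ u, b = Sum.inr u))).sum) from
      fun j => h0 _ (hPW j)
    intro c h1
    unfold idealOf at h1
    induction h1 using Submodule.span_induction with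
    | mem x hx =>
      obtain ⟨a, x, b, ⟨i, rfl⟩, rfl⟩ := hx
      rw [map_mul, map_mul]
      have h2 : χ (w (Sum.inl i)) ∈ spanOf (sg B.deg) (fun L => L = [Sum.inl i]) := by
        rw [hχ, ← mono_single]; exact mono_mem rfl
      have h3 := spanOf_mul (U := fun L => 1 ≤ (L.map (ind (fun b : ι ⊕ υ =>
        ∃ u, b = Sum.inr u))).sum) (by
          rintro L M - rfl
          simp [ind]) (mem_top_span (χ a)) h2
      refine spanOf_mul ?_ h3 (mem_top_span (χ b))
      intro L M h4 _
      rw [List.map_append, List.sum_append]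
      omega
    | zero => rw [map_zero]; exact zero_mem _
    | add x y _ _ hx hy => rw [map_add]; exact add_mem hx hy
    | smul r x _ hx => rw [map_smul]; exact Submodule.smul_mem _ _ hx
  have hzero : ∀ j, m j = 0 → χ (P j) = 0 := by
    intro j hj
    have h1 := spanOf_inter B.deg (fun k => k = m j) (hPW' j) (hPm' j)
    refine spanOf_false ?_ h1
    rintro L ⟨h2, h3⟩
    rcases L with _ | ⟨x, L⟩
    · simp at h2
    · have h4 := B.two_le x
      simp only [List.map_cons, List.sum_cons] at h3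
      omega
  refine of_sul φ hφ hd (s.anick_crit B (fun b => ∃ u, b = Sum.inr u) Sum.inl Sum.inl_injective
    ?_ hdeg ?_ ?_ (fun j => χ (P j)) (fun j => if m j = 0 then 2 else m j) ?_ ?_ ?_ ?_ ?_ n)
  · intro b
    rcases b with i | u
    · simp
    · simp
  · intro i
    have h1 : B.D (gen _ (Sum.inl i)) = χ (D (w (Sum.inl i))) := by rw [hDχ, hχ]
    rw [B.D_gen] at h1
    rw [h1, ← hinc, ← hD, hcomp, hd, hφ, s.D_gen]
  · rintro b ⟨u, rfl⟩
    exact hU u
  · intro j
    split_ifs <;> omega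
  · intro j
    split_ifs with h1
    · exact even_two
    · exact hm j
  · intro j
    by_cases h1 : m j = 0
    · rw [hzero j h1]; exact zero_mem _
    · simp only [if_neg h1]
      have h2 := spanOf_inter B.deg (fun k => k = m j) (hPW' j) (hPm' j)
      exact spanOf_mono (fun L hL => ⟨hL.2, hL.1⟩) h2
  · intro j
    rw [← hDχ, hPD, map_zero]
  · intro b hb
    rcases b with i | u
    · by_cases hi : Even (B.deg (Sum.inl i))
      · obtain ⟨N, hN⟩ := hnil i (by rw [← hdeg]; exact hi)
        refine ⟨N, ?_⟩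
        have key : ∀ c ∈ idealOf (Set.range P ∪
            Set.range (fun u : υ => w (Sum.inr u)) ∪ {x | ∃ i, Odd (s.deg i) ∧ x = w (Sum.inl i)}),
            pr B.deg (χ c) ∈ Ideal.span {q | (∃ j, q = pr B.deg (χ (P j))) ∨
              ∃ i, (∃ u, i = Sum.inr u) ∧ q = pr B.deg (gen _ i)} := by
          intro c hc
          unfold idealOf at hc
          induction hc using Submodule.span_induction with
          | mem x hx =>
            obtain ⟨a, x, b, hx, rfl⟩ := hx
            rw [map_mul, map_mul, map_mul, map_mul]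
            refine Ideal.mul_mem_right _ _ (Ideal.mul_mem_left _ _ ?_)
            rcases hx with (⟨j, rfl⟩ | ⟨u, rfl⟩) | ⟨i, hi, rfl⟩
            · exact Ideal.subset_span (Or.inl ⟨j, rfl⟩)
            · dsimp only
              rw [hχ]
              exact Ideal.subset_span (Or.inr ⟨Sum.inr u, ⟨u, rfl⟩, rfl⟩)
            · rw [hχ, pr_odd (by rw [hdeg]; exact Nat.not_even_iff_odd.2 hi)]
              exact zero_mem _
          | zero => rw [map_zero, map_zero]; exact zero_mem _
          | add x y _ _ hx hy => rw [map_add, map_add]; exact add_mem hx hy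
          | smul r x _ hx =>
            rw [map_smul, map_smul, MvPolynomial.smul_eq_C_mul]
            exact Ideal.mul_mem_left _ _ hx
        have h1 := key _ hN
        rw [map_pow, map_pow, hχ] at h1
        exact h1
      · rw [pr_odd hi]; exact zero_mem _
    · exact absurd ⟨u, rfl⟩ hb

end Pool.Agent.Results.MP_5f0082_gt.EvenFibreCriterion
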